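import Mathlib
import Pool.Agent.H15.Ltg4

set_option autoImplicit false

namespace Pool.Agent.Results.MP_d698c5_an.NoHaar
open MeasureTheory

theorem result : ∃ (G : Type) (_ : Group G) (_ : TopologicalSpace G),
    CompactSpace G ∧ LocallyCompactSpace G ∧ TopologicalSpace.MetrizableSpace G ∧
      (∀ x : G, Continuous fun g => g * x) ∧
      ∀ [MeasurableSpace G] [BorelSpace G] (μ : Measure G), IsFiniteMeasureOnCompacts μ →
        (∀ (g : G) (E : Set G), MeasurableSet E → μ ((fun x => x * g) '' E) = μ E) → μ = 0 := by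
  obtain ⟨G, _, _, _, _, h1, g, U, V, u1, v1, ⟨v, v2⟩, v3, h2⟩ := Pool.Agent.H15.Ltg.main2
  refine ⟨G, inferInstance, inferInstance, inferInstance, inferInstance, inferInstance, h1,
    fun μ _ h => ?_⟩
  have h3 : μ V = 0 := by
    have := (h g U u1.measurableSet).ge.trans (measure_mono h2)
    rw [measure_sdiff v3 v1.measurableSet.nullMeasurableSet (measure_ne_top _ _)] at this
    by_contra c
    exact (ENNReal.sub_lt_self (measure_ne_top _ _) (fun e => c (measure_mono_null v3 e)) c).not_ge this
  refine Measure.measure_univ_eq_zero.1 (isCompact_univ.measure_zero_of_nhdsWithin fun x _ =>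
    ⟨(fun y => y * (v⁻¹ * x)) '' V, mem_nhdsWithin_of_mem_nhds ?_, (h _ V v1.measurableSet).trans h3⟩)
  rw [Set.image_mul_right]
  exact (v1.preimage (h1 _)).mem_nhds (by simpa)

end Pool.Agent.Results.MP_d698c5_an.NoHaar
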